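import Pool.Agent.H17.FM.Br
import Pool.Agent.H38.BR.SumStep

set_option autoImplicit false

/-!
# The set `E` of the entropy argument
-/

namespace Pool.Agent.H31.LB

open Finset

open Classical in
/-- Abstract form. -/
theorem eset_core {L ι : Type*} [Fintype L] [Fintype ι] [Nonempty L] (w b : L → ι → ℝ)
    (hw : ∀ x m, 0 ≤ w x m) (hb0 : ∀ x m, 0 ≤ b x m) (hb1 : ∀ x m, b x m ≤ 1)
    (lam lK e : ℝ) (hlam : 0 < lam) (he : 0 ≤ e) (hlK : 0 ≤ lK)
    (h1 : ∀ x y, ∑ m, w x m * b y m + ∑ m, w y m * b x m ≤ lam)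
    (h2 : (Fintype.card L : ℝ) * (lam - lK) ≤ ∑ x, ∑ m, w x m)
    (h2' : ∀ x, ∑ m, w x m ≤ lam)
    (h3 : ∀ m, (1 / 2 - e) * (Fintype.card L : ℝ) ≤ ∑ y, b y m)
    (heta : 32 * (e + lK / (2 * lam)) ≤ 1) :
    (#{y : L | ∑ m, (∑ x, w x m) * b y m ≤ 3 / 8 * ((Fintype.card L : ℝ) * lam)} : ℝ) ≤
        16 * (e + lK / (2 * lam)) * (Fintype.card L : ℝ) ∧
      ∀ mt : L → L → L, (∀ y z m, b (mt y z) m = b y m * b z m) →
        (Fintype.card L : ℝ) ^ 2 / 4 ≤ (#{p : L × L | ∑ m, (∑ x, w x m) * b (mt p.1 p.2) m ≤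
          3 / 8 * ((Fintype.card L : ℝ) * lam)} : ℝ) := by
  set N : ℝ := (Fintype.card L : ℝ) with hN
  have hNpos : 0 < N := by
    rw [hN]
    exact_mod_cast Fintype.card_pos
  set η : ℝ := e + lK / (2 * lam) with hη
  have hη2 : 2 * lam * η = 2 * e * lam + lK := by
    rw [hη]
    field_simp
  have hη0 : 0 ≤ η := by rw [hη]; positivity
  have he2 : e ≤ η := by rw [hη]; have : 0 ≤ lK / (2 * lam) := by positivity
                         linarith
  have hc0 : 0 ≤ 1 / 2 - e := by linarith
  set V : ι → ℝ := fun m => ∑ x, w x m with hV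
  set A : ι → ℝ := fun m => ∑ y, b y m with hA
  set S : ℝ := ∑ m, V m with hS
  set Q : ℝ := ∑ m, V m * A m with hQ
  have hV0 : ∀ m, 0 ≤ V m := fun m => Finset.sum_nonneg fun x _ => hw x m
  have hA1 : ∀ m, A m ≤ N := by
    intro m
    calc A m ≤ ∑ _y : L, (1 : ℝ) := Finset.sum_le_sum fun y _ => hb1 y m
      _ = N := by simp [hN]
  have hS1 : S = ∑ x, ∑ m, w x m := by
    rw [hS, Finset.sum_comm]
  -- the double sums
  have hd1 : ∑ x, ∑ y, ∑ m, w x m * b y m = Q := by
    calc _ = ∑ x, ∑ m, w x m * A m := by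
          refine Finset.sum_congr rfl fun x _ => ?_
          rw [Finset.sum_comm]
          refine Finset.sum_congr rfl fun m _ => ?_
          rw [hA, Finset.mul_sum]
      _ = Q := by
          rw [Finset.sum_comm, hQ]
          refine Finset.sum_congr rfl fun m _ => ?_
          rw [hV, Finset.sum_mul]
  have hQ2 : 2 * Q ≤ N * (N * lam) := by
    have h4 := Finset.sum_le_sum (s := (univ : Finset L)) fun x _ =>
      Finset.sum_le_sum (s := (univ : Finset L)) fun y _ => h1 x y
    simp only [Finset.sum_add_distrib] at h4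
    rw [Finset.sum_comm (f := fun x y => ∑ m, w y m * b x m), hd1] at h4
    simp only [Finset.sum_const, Finset.card_univ, nsmul_eq_mul, ← hN] at h4
    linarith
  have hQ1 : (1 / 2 - e) * N * S ≤ Q := by
    rw [hS, hQ, Finset.mul_sum]
    refine Finset.sum_le_sum fun m _ => ?_
    rw [mul_comm]
    exact mul_le_mul_of_nonneg_left (h3 m) (hV0 m)
  have hSle : N * (lam - lK) ≤ S := by rw [hS1]; exact h2
  have hcS : (1 / 2 - e) * N * (N * (lam - lK)) ≤ (1 / 2 - e) * N * S :=
    mul_le_mul_of_nonneg_left hSle (by positivity)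
  have hcS2 : N * (N * lam) - N * (N * (lam * η)) * 2 ≤ 2 * ((1 / 2 - e) * N * (N * (lam - lK))) := by
    have h5 : N * (N * (lam * η)) * 2 = N * N * (2 * e * lam + lK) := by rw [← hη2]; ring
    rw [h5]
    have h6 : 0 ≤ N * N * (2 * e * lK) := by positivity
    nlinarith
  refine ⟨?_, ?_⟩
  · -- few elements in `E`
    set E : Finset L := univ.filter (fun y => ∑ m, (∑ x, w x m) * b y m ≤ 3 / 8 * (N * lam)) with hE
    have hDR : ∀ y, 0 ≤ (N * lam - ∑ m, w y m * A m - ∑ m, V m * b y m) := by
      intro y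
      have h4 := Finset.sum_le_sum (s := (univ : Finset L)) fun x _ => h1 x y
      simp only [Finset.sum_add_distrib] at h4
      rw [Finset.sum_comm (f := fun x m => w x m * b y m),
        Finset.sum_comm (f := fun x m => w y m * b x m)] at h4
      simp only [← Finset.mul_sum, ← Finset.sum_mul, Finset.sum_const, Finset.card_univ,
        nsmul_eq_mul, ← hN] at h4
      linarith
    have hR : ∀ y, 0 ≤ ∑ m, w y m * (A m - (1 / 2 - e) * N) := fun y =>
      Finset.sum_nonneg fun m _ => mul_nonneg (hw y m) (by linarith [h3 m])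
    set F : L → ℝ := fun y => (N * lam - ∑ m, w y m * A m - ∑ m, V m * b y m) +
      ∑ m, w y m * (A m - (1 / 2 - e) * N) with hF
    have hF0 : ∀ y, 0 ≤ F y := fun y => add_nonneg (hDR y) (hR y)
    have hFe : ∀ y, F y = N * lam - ∑ m, V m * b y m - (1 / 2 - e) * N * ∑ m, w y m := by
      intro y
      simp only [hF, mul_sub, Finset.sum_sub_distrib]
      have : ∑ m, w y m * ((1 / 2 - e) * N) = (1 / 2 - e) * N * ∑ m, w y m := by
        rw [← Finset.sum_mul]; ring
      rw [this]
      ring
    have hFE : ∀ y ∈ E, N * lam / 8 ≤ F y := by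
      intro y hy
      have h4 : ∑ m, V m * b y m ≤ 3 / 8 * (N * lam) := (Finset.mem_filter.1 hy).2
      rw [hFe]
      have h5 : 0 ≤ ∑ m, w y m := Finset.sum_nonneg fun m _ => hw y m
      have h6 := h2' y
      have h7 : (1 / 2 - e) * N * ∑ m, w y m ≤ 1 / 2 * N * lam := by
        calc (1 / 2 - e) * N * ∑ m, w y m ≤ (1 / 2) * N * ∑ m, w y m := by
              refine mul_le_mul_of_nonneg_right ?_ h5
              refine mul_le_mul_of_nonneg_right ?_ hNpos.le
              linarith
          _ ≤ _ := mul_le_mul_of_nonneg_left h6 (by positivity)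
      linarith
    have hFs : ∑ y, F y = N * (N * lam) - Q - (1 / 2 - e) * N * S := by
      simp only [hFe, Finset.sum_sub_distrib, ← Finset.mul_sum, Finset.sum_const,
        Finset.card_univ, nsmul_eq_mul, ← hN]
      have : ∑ x, ∑ m, V m * b x m = Q := by
        rw [Finset.sum_comm, hQ]
        exact Finset.sum_congr rfl fun m _ => by rw [hA, Finset.mul_sum]
      rw [this, ← hS1]
    have h8 : (#E : ℝ) * (N * lam / 8) ≤ N * (N * (lam * η)) * 2 := by
      calc (#E : ℝ) * (N * lam / 8) = ∑ _y ∈ E, N * lam / 8 := by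
            rw [Finset.sum_const, nsmul_eq_mul]
        _ ≤ ∑ y ∈ E, F y := Finset.sum_le_sum hFE
        _ ≤ ∑ y, F y := Finset.sum_le_sum_of_subset_of_nonneg (Finset.subset_univ _)
            fun y _ _ => hF0 y
        _ ≤ _ := by
            rw [hFs]
            linarith
    have h9 : (N * lam / 8) * (#E : ℝ) ≤ (N * lam / 8) * (16 * η * N) := by
      calc (N * lam / 8) * (#E : ℝ) = (#E : ℝ) * (N * lam / 8) := by ring
        _ ≤ N * (N * (lam * η)) * 2 := h8
        _ = _ := by ring
    exact le_of_mul_le_mul_left h9 (by positivity)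
  · intro mt hmt
    set G : L × L → ℝ := fun p => ∑ m, V m * b (mt p.1 p.2) m with hG
    have hG0 : ∀ p, 0 ≤ G p := fun p => Finset.sum_nonneg fun m _ => mul_nonneg (hV0 m) (hb0 _ m)
    have hGs : ∑ p, G p = ∑ m, V m * (A m * A m) := by
      rw [Fintype.sum_prod_type]
      simp only [hG, hmt]
      calc ∑ x, ∑ y, ∑ m, V m * (b x m * b y m) = ∑ x, ∑ m, V m * (b x m * A m) := by
            refine Finset.sum_congr rfl fun x _ => ?_
            rw [Finset.sum_comm]
            refine Finset.sum_congr rfl fun m _ => ?_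
            rw [hA, ← Finset.mul_sum, ← Finset.mul_sum]
        _ = _ := by
            rw [Finset.sum_comm]
            refine Finset.sum_congr rfl fun m _ => ?_
            rw [← Finset.mul_sum, ← Finset.sum_mul]
    have h4 : ∑ m, V m * (A m * A m) ≤ N * (Q - (1 / 2 - e) * N * S) + (1 / 2 - e) * N * Q := by
      rw [hS, hQ, Finset.mul_sum, Finset.mul_sum, ← Finset.sum_sub_distrib, Finset.mul_sum,
        ← Finset.sum_add_distrib]
      refine Finset.sum_le_sum fun m _ => ?_
      have h5 := h3 m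
      have h6 := hA1 m
      have h7 : A m * (A m - (1 / 2 - e) * N) ≤ N * (A m - (1 / 2 - e) * N) :=
        mul_le_mul_of_nonneg_right h6 (by simp only [hA]; linarith)
      have h8 := mul_le_mul_of_nonneg_left h7 (hV0 m)
      nlinarith
    have h5 : ∑ m, V m * (A m * A m) ≤ N * (N * (N * (lam * η))) + 1 / 4 * (N * (N * (N * lam))) := by
      have h6 : Q - (1 / 2 - e) * N * S ≤ N * (N * (lam * η)) := by linarith
      have h7 : N * (Q - (1 / 2 - e) * N * S) ≤ N * (N * (N * (lam * η))) :=
        mul_le_mul_of_nonneg_left h6 hNpos.le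
      have h8 : (1 / 2 - e) * N * Q ≤ 1 / 2 * N * (N * (N * lam) / 2) := by
        calc (1 / 2 - e) * N * Q ≤ (1 / 2 - e) * N * (N * (N * lam) / 2) :=
              mul_le_mul_of_nonneg_left (by linarith) (by positivity)
          _ ≤ _ := by
              refine mul_le_mul_of_nonneg_right ?_ (by positivity)
              refine mul_le_mul_of_nonneg_right ?_ hNpos.le
              linarith
      linarith
    set B : Finset (L × L) := univ.filter (fun p => ¬ G p ≤ 3 / 8 * (N * lam)) with hB
    set C : Finset (L × L) := univ.filter (fun p => G p ≤ 3 / 8 * (N * lam)) with hC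
    have h6 : (#B : ℝ) * (3 / 8 * (N * lam)) ≤ ∑ p, G p := by
      calc (#B : ℝ) * (3 / 8 * (N * lam)) = ∑ _p ∈ B, 3 / 8 * (N * lam) := by
            rw [Finset.sum_const, nsmul_eq_mul]
        _ ≤ ∑ p ∈ B, G p := Finset.sum_le_sum fun p hp => by
            have := (Finset.mem_filter.1 hp).2
            exact (not_le.1 this).le
        _ ≤ _ := Finset.sum_le_sum_of_subset_of_nonneg (Finset.subset_univ _)
            fun p _ _ => hG0 p
    have h7 : (#C : ℝ) + #B = N * N := by
      have h8 := Finset.card_filter_add_card_filter_not (s := (univ : Finset (L × L)))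
        (fun p => G p ≤ 3 / 8 * (N * lam))
      rw [Finset.card_univ, Fintype.card_prod] at h8
      rw [hN]
      exact_mod_cast h8
    rw [hGs] at h6
    have h8 : (3 / 8 * (N * lam)) * (#B : ℝ) ≤ (3 / 8 * (N * lam)) * (3 / 4 * (N * N)) := by
      have h9 : N * (N * (N * (lam * η))) ≤ N * (N * (N * (lam * (1 / 32)))) := by
        gcongr
        linarith
      linarith
    have h9 : (#B : ℝ) ≤ 3 / 4 * (N * N) := le_of_mul_le_mul_left h8 (by positivity)
    have h10 : N ^ 2 / 4 ≤ (#C : ℝ) := by nlinarith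
    exact h10

open Classical in
/-- The set `E`. -/
theorem eset {L : Type*} [Lattice L] [Fintype L] {r : ℕ} {κ : Type*} (j g : Fin r → L)
    (hg : ∀ m, j m ≤ g m) (hinj : ∀ x y : L, (∀ m, x ⊓ j m = y ⊓ j m) → x = y)
    (cls : L → κ) (hcls : ∀ x y, cls x = cls y → ∀ m, (g m ≤ x ↔ g m ≤ y))
    (K : ℝ) (hK : ((univ.image cls).card : ℝ) ≤ K) (e : ℝ) (he : 0 ≤ e)
    (hN : 2 ≤ Fintype.card L)
    (hu : ∀ m, (1 / 2 - e) * (Fintype.card L : ℝ) ≤ (#{y : L | g m ≤ y} : ℝ))
    (heta : 32 * (e + Real.log K / (2 * Real.log (Fintype.card L))) ≤ 1) :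
    ∃ E : Finset L, (#E : ℝ) ≤
      16 * (e + Real.log K / (2 * Real.log (Fintype.card L))) * Fintype.card L ∧
      (Fintype.card L : ℝ) ^ 2 / 4 ≤ (#{p : L × L | p.1 ⊓ p.2 ∈ E} : ℝ) := by
  have hne : Nonempty L := Fintype.card_pos_iff.1 (by omega)
  obtain ⟨w, hw0, hw1, hw2⟩ := Pool.Agent.H17.Br.exists_w j g hg hinj cls hcls
  have hNR : (2 : ℝ) ≤ Fintype.card L := by exact_mod_cast hN
  have hlam : 0 < Real.log (Fintype.card L) := Real.log_pos (by linarith)
  have hK1 : 1 ≤ K := by
    refine le_trans ?_ hK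
    have : 0 < (univ.image cls).card :=
      Finset.card_pos.2 ⟨cls (Classical.arbitrary L), by simp⟩
    exact_mod_cast this
  have key := eset_core (L := L) (fun x m => w (cls x) m) (fun y m => if g m ≤ y then 1 else 0)
    (fun x m => hw0 _ _) (fun x m => by split_ifs <;> norm_num)
    (fun x m => by split_ifs <;> norm_num) (Real.log (Fintype.card L)) (Real.log K) e hlam he
    (Real.log_nonneg hK1)
    (fun x y => by
      have h1 := hw2 x y
      simp only [Finset.sum_filter] at h1
      simpa only [mul_ite, mul_one, mul_zero] using h1)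
    (by
      have h1 := Pool.Agent.H38.BR.sum_log_class_le cls K hK
      refine h1.trans (Finset.sum_le_sum fun x _ => ?_)
      rw [hw1])
    (fun x => by
      rw [hw1]
      apply Real.log_le_log
      · have : 0 < #{y : L | cls y = cls x} := Finset.card_pos.mpr ⟨x, by simp⟩
        exact_mod_cast this
      · exact_mod_cast Finset.card_le_univ _)
    (fun m => by
      rw [Finset.sum_boole]
      exact hu m)
    heta
  refine ⟨_, key.1, ?_⟩
  have h2 := key.2 (fun y z => y ⊓ z) (fun y z m => by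
    by_cases h : g m ≤ y <;> by_cases h' : g m ≤ z <;> simp [h, h'])
  refine h2.trans (le_of_eq ?_)
  congr 2
  ext p
  simp

end Pool.Agent.H31.LB
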