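import Pool.Agent.H80.VcFinal
import Pool.Agent.H51.VC.Num

set_option autoImplicit false

/-!
# The explicit bound, from `H80.Vc.main` and the numbers of `H51.VC.Num`
-/

namespace Pool.Agent.H31.LB

open Classical in
theorem explicit_main {L : Type*} [Lattice L] [BoundedOrder L] [Fintype L] (b : ℕ)
    (M : Finset L) (hM : ∀ a : L, SupIrred a → ∃ m ∈ M, a ≤ m)
    (hb : ∀ S ⊆ M, ∃ T ⊆ S, T.card ≤ b ∧ T.sup id = S.sup id)
    (hN : Real.exp (200 * (((b : ℝ) ^ 2 + 1) * Real.log ((b : ℝ) + 2))) ≤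
      Real.log (Fintype.card L)) :
    ∃ a ∈ M, 2 * (Finset.univ.filter (fun x : L => a ≤ x)).card < Fintype.card L := by
  have hb0 : (0 : ℝ) ≤ (b : ℝ) := Nat.cast_nonneg b
  have h3 : (3 : ℝ) ≤ Real.exp (200 * (((b : ℝ) ^ 2 + 1) * Real.log ((b : ℝ) + 2))) := by
    have h1 : Real.log 2 ≤ Real.log ((b : ℝ) + 2) := Real.log_le_log (by norm_num) (by linarith)
    have h2 : (0.69 : ℝ) ≤ Real.log 2 := by
      have := Real.log_two_gt_d9
      linarith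
    have h4 : (2 : ℝ) ≤ 200 * (((b : ℝ) ^ 2 + 1) * Real.log ((b : ℝ) + 2)) := by
      have h5 : (1 : ℝ) ≤ (b : ℝ) ^ 2 + 1 := by nlinarith
      have h6 : (0.69 : ℝ) ≤ ((b : ℝ) ^ 2 + 1) * Real.log ((b : ℝ) + 2) := by nlinarith
      linarith
    have h5 := Real.add_one_le_exp (200 * (((b : ℝ) ^ 2 + 1) * Real.log ((b : ℝ) + 2)))
    linarith
  refine Pool.Agent.H80.Vc.main b M hM hb _ h3 ?_ hN
  intro Lam hLam t t1 K K1 e e1 eta ht hK he he1 ht1 hK1 heta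
  have hKc : ((((t + 1) ^ b + 1) ^ b : ℕ) : ℝ) = K := by rw [hK]; push_cast; rfl
  have hK1c : ((((t1 + 1) ^ b + 1) ^ b : ℕ) : ℝ) = K1 := by rw [hK1]; push_cast; rfl
  obtain ⟨-, -, h32, hfin⟩ := Pool.Agent.H51.VC.Num.numbers b Lam hLam e e1 eta t t1
    (((t + 1) ^ b + 1) ^ b) (((t1 + 1) ^ b + 1) ^ b) he ht rfl he1 (by rw [hKc]; exact ht1) rfl
    (by rw [hKc]; exact heta)
  rw [hKc, hK1c] at hfin
  exact ⟨h32, hfin⟩

end Pool.Agent.H31.LB
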